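import Pool.Agent.Z15P.Z15.H.Stm

/-!
The cycle of a point over a function field.
-/

set_option autoImplicit false

open FF FF.PP MvPolynomial

namespace Pool.Agent.Z15P.T2h64.H15

open Pool.Agent.Z15P.Z15.H

section

variable {k : Type} [Field k] {ι E : Type} [Field E] [Algebra k E]

theorem aeval_scale {A : Type} [CommRing A] [Algebra k A] (P : ι → A) (c : A)
    {G : MvPolynomial ι k} {n : ℕ} (hG : G.IsHomogeneous n) :
    aeval (fun i => c * P i) G = c ^ n * aeval P G := by
  rw [aeval_def, eval₂_eq, aeval_def, eval₂_eq, Finset.mul_sum]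
  refine Finset.sum_congr rfl fun m hm => ?_
  have h1 := hG (mem_support_iff.1 hm)
  have h2 : ∑ i ∈ m.support, m i = n := by
    rw [← h1, Finsupp.weight_apply, Finsupp.sum]
    refine Finset.sum_congr rfl fun i _ => ?_
    simp
  simp only [mul_pow, Finset.prod_mul_distrib]
  rw [Finset.prod_pow_eq_pow_sum, h2]
  ring

theorem locus_scale (P : ι → E) (c : E) (hc : c ≠ 0) :
    locus k (fun i => c * P i) = locus k P := by
  ext G
  show (∀ n, _) ↔ ∀ n, _
  refine forall_congr' fun n => ?_
  rw [aeval_scale P c (homogeneousComponent_isHomogeneous n G)]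
  rw [mul_eq_zero, or_iff_right (pow_ne_zero n hc)]

theorem ratio_scale (P : ι → E) (c : E) (hc : c ≠ 0) :
    ratioField k (fun i => c * P i) = ratioField k P := by
  unfold ratioField
  congr 1
  ext z
  simp only [Set.mem_ofPred_eq]
  refine exists_congr fun i => exists_congr fun j => ?_
  rw [mul_div_mul_left _ _ hc]

theorem cyc_scale (P : ι → E) (c : E) (hc : c ≠ 0) : cyc k (fun i => c * P i) = cyc k P := by
  unfold cyc
  rw [locus_scale P c hc, ratio_scale P c hc]

theorem locus_map {E' : Type} [Field E'] [Algebra k E'] (φ : E →ₐ[k] E') (P : ι → E) :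
    locus k (fun i => φ (P i)) = locus k P := by
  ext G
  show (∀ n, _) ↔ ∀ n, _
  refine forall_congr' fun n => ?_
  have h : aeval (fun i => φ (P i)) (homogeneousComponent n G) =
      φ (aeval P (homogeneousComponent n G)) := by
    have := comp_aeval_apply (φ := φ) P (homogeneousComponent n G)
    rw [this]
  rw [h, map_eq_zero_iff φ φ.toRingHom.injective]

theorem ratio_map {E' : Type} [Field E'] [Algebra k E'] (φ : E →ₐ[k] E') (P : ι → E) :
    ratioField k (fun i => φ (P i)) = (ratioField k P).map φ := by
  unfold ratioField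
  rw [IntermediateField.adjoin_map]
  congr 1
  ext z
  simp only [Set.mem_ofPred_eq, Set.mem_image]
  constructor
  · rintro ⟨i, j, rfl⟩
    exact ⟨P i / P j, ⟨i, j, rfl⟩, map_div₀ φ _ _⟩
  · rintro ⟨_, ⟨i, j, rfl⟩, rfl⟩
    exact ⟨i, j, map_div₀ φ _ _⟩

theorem finrank_map {E' : Type} [Field E'] [Algebra k E'] (φ : E →ₐ[k] E')
    (K : IntermediateField k E) :
    letI := φ.toRingHom.toAlgebra
    Module.finrank (K.map φ) E' = Module.finrank K E * Module.finrank E E' := by
  let _ := φ.toRingHom.toAlgebra
  have : IsScalarTower K E E' := IsScalarTower.of_algebraMap_eq fun x => rfl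
  have h1 : Module.finrank K E * Module.finrank E E' = Module.finrank K E' :=
    Module.finrank_mul_finrank K E E'
  rw [h1]
  symm
  exact Algebra.finrank_eq_of_equiv_equiv (K.equivMap φ).toRingEquiv (RingEquiv.refl E') (by
    ext x
    rfl)

theorem cyc_equiv {E' : Type} [Field E'] [Algebra k E'] (φ : E →ₐ[k] E')
    (hφ : Function.Surjective φ) (P : ι → E) : cyc k (fun i => φ (P i)) = cyc k P := by
  unfold cyc
  rw [locus_map, ratio_map]
  let _ := φ.toRingHom.toAlgebra
  rw [finrank_map φ]
  have h1 : Module.finrank E E' = 1 := by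
    have h2 := Algebra.finrank_eq_of_equiv_equiv (RingEquiv.refl E)
      (RingEquiv.ofBijective φ.toRingHom ⟨φ.toRingHom.injective, hφ⟩) (by
        ext x
        rfl)
    rw [← h2, Module.finrank_self]
  rw [h1, mul_one]

theorem cyc_finite {E' : Type} [Field E'] [Algebra k E'] [Algebra E E'] [IsScalarTower k E E']
    (P : ι → E) :
    cyc k (fun i => algebraMap E E' (P i)) = Module.finrank E E' • cyc k P := by
  have h1 := locus_map (IsScalarTower.toAlgHom k E E') P
  have h2 := ratio_map (IsScalarTower.toAlgHom k E E') P
  have h3 := finrank_map (IsScalarTower.toAlgHom k E E') (ratioField k P)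
  have h4 : (IsScalarTower.toAlgHom k E E').toRingHom.toAlgebra = ‹Algebra E E'› := by
    ext
    rw [Algebra.smul_def]
    rfl
  rw [h4] at h3
  unfold cyc
  rw [IsScalarTower.coe_toAlgHom'] at h1 h2
  rw [h1, h2, h3, Finsupp.smul_single, nsmul_eq_mul]
  congr 1
  push_cast
  ring

theorem cyc_const [IsFF k E] (p : ι → k) : cyc k (fun i => algebraMap k E (p i)) = 0 := by
  unfold cyc
  have h1 : ratioField k (fun i => algebraMap k E (p i)) = ⊥ := by
    unfold ratioField
    rw [IntermediateField.adjoin_eq_bot_iff]
    rintro _ ⟨i, j, rfl⟩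
    rw [← map_div₀]
    exact IntermediateField.algebraMap_mem _ _
  have h3 : Module.finrank k E = 0 := by
    refine Module.finrank_of_not_finite fun h => ?_
    obtain ⟨f, hf⟩ := IsFF.exists_transcendental (k := k) (K := E)
    exact hf (Algebra.IsAlgebraic.isAlgebraic f)
  rw [h1, IntermediateField.finrank_bot', h3]
  simp

theorem exists_det {a b : ι → k} [Fintype ι] (h : LinearIndependent k ![a, b]) :
    ∃ i j, a i * b j - a j * b i ≠ 0 := by
  by_contra hc
  push Not at hc
  have hb : b ≠ 0 := h.ne_zero 1
  obtain ⟨j, hj⟩ : ∃ j, b j ≠ 0 := by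
    by_contra h0
    push Not at h0
    exact hb (funext h0)
  rw [LinearIndependent.pair_iff] at h
  have h1 := (h (b j) (-(a j)) (by
    funext i
    have := hc i j
    simp only [Pi.add_apply, Pi.smul_apply, smul_eq_mul, Pi.zero_apply]
    linear_combination this)).1
  exact hj h1

theorem ratio_line [Fintype ι] {θ : E} (hθ : Transcendental k θ)
    (hθ' : IntermediateField.adjoin k {θ} = ⊤) {a b : ι → k} (h : LinearIndependent k ![a, b]) :
    ratioField k (fun i => algebraMap k E (a i) + θ * algebraMap k E (b i)) = ⊤ := by
  obtain ⟨i, j, hij⟩ := exists_det h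
  rw [eq_top_iff, ← hθ', IntermediateField.adjoin_simple_le_iff]
  obtain ⟨K, hK⟩ : ∃ K, K = ratioField k (fun i => algebraMap k E (a i) + θ * algebraMap k E (b i)) :=
    ⟨_, rfl⟩
  rw [← hK]
  have hPj : algebraMap k E (a j) + θ * algebraMap k E (b j) ≠ 0 := by
    intro h0
    have hbj : b j ≠ 0 := by
      intro hb
      rw [hb, map_zero, mul_zero, add_zero, map_eq_zero] at h0
      apply hij
      rw [hb, h0]; ring
    apply hθ
    have h1 : θ = algebraMap k E (-(a j) / b j) := by
      have hb : algebraMap k E (b j) ≠ 0 := by rwa [Ne, map_eq_zero]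
      rw [map_div₀, map_neg, eq_div_iff hb]
      linear_combination h0
    rw [h1]
    exact isAlgebraic_algebraMap _
  obtain ⟨z, hz⟩ : ∃ z, z = (algebraMap k E (a i) + θ * algebraMap k E (b i)) /
      (algebraMap k E (a j) + θ * algebraMap k E (b j)) := ⟨_, rfl⟩
  have hzK : z ∈ K := by
    rw [hK]
    exact IntermediateField.subset_adjoin _ _ ⟨i, j, hz⟩
  have hz1 : z * (algebraMap k E (a j) + θ * algebraMap k E (b j)) =
      algebraMap k E (a i) + θ * algebraMap k E (b i) := by
    rw [hz, div_mul_cancel₀ _ hPj]
  have hd : z * algebraMap k E (b j) - algebraMap k E (b i) ≠ 0 := by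
    intro h0
    apply hij
    apply (algebraMap k E).injective
    rw [map_sub, map_mul, map_mul, map_zero]
    have h1 : z * algebraMap k E (a j) = algebraMap k E (a i) := by linear_combination hz1 - θ * h0
    linear_combination (-(algebraMap k E (b j))) * h1 + algebraMap k E (a j) * h0
  have h2 : θ = (algebraMap k E (a i) - z * algebraMap k E (a j)) /
      (z * algebraMap k E (b j) - algebraMap k E (b i)) := by
    rw [eq_div_iff hd]
    linear_combination hz1
  rw [h2]
  have hk : ∀ c : k, algebraMap k E c ∈ K := fun c => K.algebraMap_mem c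
  exact K.div_mem (K.sub_mem (hk _) (K.mul_mem hzK (hk _))) (K.sub_mem (K.mul_mem hzK (hk _)) (hk _))

theorem locus_line [Infinite k] [Fintype ι] {θ : E} (hθ : Transcendental k θ) (a b : ι → k) :
    locus k (fun i => algebraMap k E (a i) + θ * algebraMap k E (b i)) =
      {G | ∀ n, ∀ α β : k, eval (fun i => α * a i + β * b i) (homogeneousComponent n G) = 0} := by
  ext G
  show (∀ n, _) ↔ ∀ n, _
  refine forall_congr' fun n => ?_
  obtain ⟨g, hg⟩ : ∃ g, g = homogeneousComponent n G := ⟨_, rfl⟩
  have hgh : g.IsHomogeneous n := by rw [hg]; exact homogeneousComponent_isHomogeneous n G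
  rw [← hg]
  -- polynomials in one variable
  have key : ∀ (u v : ι → k) (A : Type) (_ : CommRing A) (_ : Algebra k A) (s : A),
      aeval (fun i => algebraMap k A (u i) + s * algebraMap k A (v i)) g =
      Polynomial.aeval s (aeval (fun i => Polynomial.C (u i) + Polynomial.X * Polynomial.C (v i)) g :
        Polynomial k) := by
    intro u v A _ _ s
    have := comp_aeval_apply (φ := Polynomial.aeval (R := k) s)
      (fun i => Polynomial.C (u i) + Polynomial.X * Polynomial.C (v i)) g
    rw [this]
    congr 1
    congr 1
    funext i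
    rw [map_add, map_mul, Polynomial.aeval_C, Polynomial.aeval_C, Polynomial.aeval_X]
  have key2 : ∀ (u v : ι → k) (s : k), eval (fun i => u i + s * v i) g =
      Polynomial.eval s (aeval (fun i => Polynomial.C (u i) + Polynomial.X * Polynomial.C (v i)) g :
        Polynomial k) := by
    intro u v s
    have := key u v k inferInstance inferInstance s
    exact this
  constructor
  · intro h
    have h1 : (aeval (fun i => Polynomial.C (a i) + Polynomial.X * Polynomial.C (b i)) g :
        Polynomial k) = 0 := by
      rw [key] at h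
      exact (transcendental_iff.1 hθ) _ h
    have h2 : ∀ s : k, eval (fun i => a i + s * b i) g = 0 := by
      intro s
      rw [key2, h1, Polynomial.eval_zero]
    have h3 : ∀ α β : k, α ≠ 0 → eval (fun i => α * a i + β * b i) g = 0 := by
      intro α β hα
      have h4 := aeval_scale (k := k) (fun i => a i + β / α * b i) α hgh
      have h5 : (fun i => α * (a i + β / α * b i)) = fun i => α * a i + β * b i := by
        funext i
        field_simp
      rw [h5] at h4
      have h6 : aeval (fun i => a i + β / α * b i) g = 0 := h2 (β / α)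
      rw [h6, mul_zero] at h4
      exact h4
    intro α β
    by_cases hα : α = 0
    · have h4 : (aeval (fun i => Polynomial.C (β * b i) + Polynomial.X * Polynomial.C (a i)) g :
          Polynomial k) = 0 := by
        by_contra h0
        have h5 : {x : k | x ≠ 0} ⊆ {x : k | Polynomial.IsRoot (aeval (fun i =>
            Polynomial.C (β * b i) + Polynomial.X * Polynomial.C (a i)) g : Polynomial k) x} := by
          intro x hx
          have h6 := h3 x β hx
          have h7 := key2 (fun i => β * b i) a x
          have h8 : (fun i => β * b i + x * a i) = fun i => x * a i + β * b i := by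
            funext i; ring
          rw [h8, h6] at h7
          exact h7.symm
        have h9 : Set.Infinite {x : k | x ≠ 0} := by
          have := Set.infinite_univ (α := k)
          have h10 := this.sdiff (Set.finite_singleton (0 : k))
          refine h10.mono ?_
          intro x hx
          exact fun h => hx.2 h
        exact h9 ((Polynomial.finite_setOfPred_isRoot h0).subset h5)
      have h5 := key2 (fun i => β * b i) a 0
      rw [h4, Polynomial.eval_zero] at h5
      have h6 : (fun i => β * b i + 0 * a i) = fun i => α * a i + β * b i := by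
        funext i
        rw [hα]; ring
      rw [h6] at h5
      exact h5
    · exact h3 α β hα
  · intro h
    rw [key]
    have h1 : (aeval (fun i => Polynomial.C (a i) + Polynomial.X * Polynomial.C (b i)) g :
        Polynomial k) = 0 := by
      refine Polynomial.funext fun s => ?_
      rw [← key2, Polynomial.eval_zero]
      have := h 1 s
      simpa only [one_mul] using this
    rw [h1, map_zero]

theorem cyc_line [Infinite k] [Fintype ι] {θ : E} (hθ : Transcendental k θ)
    (hθ' : IntermediateField.adjoin k {θ} = ⊤) {a b : ι → k} (h : LinearIndependent k ![a, b]) :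
    cyc k (fun i => algebraMap k E (a i) + θ * algebraMap k E (b i)) = line a b := by
  unfold cyc line
  rw [ratio_line hθ hθ' h, locus_line hθ, IntermediateField.finrank_top]
  rfl

end

theorem t_CYC : Pool.Agent.Z15P.Z15.H.Stm.T_CYC := by
  intro k _ _ _ ι E _ _ _
  refine ⟨fun P c hc => cyc_scale P c hc, fun E' _ _ φ hφ P => cyc_equiv φ hφ P,
    fun E' _ _ _ _ _ P => cyc_finite P, fun _ p => cyc_const p, fun θ hθ hθ' a b h => ?_⟩
  exact cyc_line hθ hθ' h

end Pool.Agent.Z15P.T2h64.H15
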